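import Pool.Agent.Helper55.SCH.Top

/-!
# MP_c13f7d_co: the exact minimum when one colour class is an interval

Every 3-colouring of `{1, …, n}` one class of which is an interval `{x : c < x ≤ d}` with
`67 c² ≥ 2 n²` (i.e. `c ≥ 0.1728 n`; `d` arbitrary) has at least `n² / 134 - K n^(3/2)`
monochromatic Schur triples, and for every `n ≥ 5` there is such a colouring with at most
`n² / 134 + K n` of them.
-/

set_option autoImplicit false

open Finset Pool.Agent.Helper33.Schur in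
theorem Pool.Agent.Results.MP_c13f7d_co.IntervalClass.result :
    ∃ K : ℝ,
      (∀ (n c d : ℕ) (χ : ℕ → Fin 3) (k : Fin 3),
        (∀ x ∈ Icc 1 n, (χ x = k ↔ c < x ∧ x ≤ d)) → 2 * n ^ 2 ≤ 67 * c ^ 2 →
        (n : ℝ) ^ 2 / 134 - K * (n * Real.sqrt n) ≤ schurMono χ n) ∧
      (∀ n : ℕ, 5 ≤ n → ∃ (c d : ℕ) (χ : ℕ → Fin 3) (k : Fin 3),
        (∀ x ∈ Icc 1 n, (χ x = k ↔ c < x ∧ x ≤ d)) ∧ 2 * n ^ 2 ≤ 67 * c ^ 2 ∧
        (schurMono χ n : ℝ) ≤ (n : ℝ) ^ 2 / 134 + K * n) :=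
  Pool.Agent.Helper55.SCH.top
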