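import Pool.Agent.Helper87.SL.Goals
import Pool.Agent.Helper77.SL.BLK
import Pool.Agent.Helper24.SL.SHF
import Pool.Agent.Helper33.SL.CS
import Pool.Agent.Helper83.SL.ORD
import Pool.Agent.Helper89.SL.STR
import Pool.Agent.Helper86.SL.VAR
import Pool.Agent.Helper5.SL.PIG
import Pool.Agent.Helper93.SL.DBL
import Pool.Agent.Helper49.SL.CMP
import Pool.Agent.Helper15.SL.LOW
import Pool.Agent.Helper42.SL.LimMain

/-!
# MP_c13f7d_co: the asymptotics of the minimum number of monochromatic Schur triples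

For every number `k ≥ 1` of colours `M_k(n) / n²` converges; the limit is the infimum of the
explicit numbers `dens q s c`, which are the densities of the colourings `strc q s c` in which the
colour of `x ∈ {1, …, N}` depends only on `x mod q` and on the one of `s` intervals of equal length
that contains `x`.
-/

set_option autoImplicit false

open Filter Topology Pool.Agent.Helper33.Schur Pool.Agent.Helper87.SL in
theorem Pool.Agent.Results.MP_c13f7d_co.LimitAndStructure.result (k : ℕ) (hk : 1 ≤ k) :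
    ∃ L : ℝ,
      Tendsto (fun n : ℕ => (schurMin k n : ℝ) / (n : ℝ) ^ 2) atTop (𝓝 L) ∧
      IsGLB {d : ℝ | ∃ (q s : ℕ) (c : ℕ → ℕ → Fin k), 1 ≤ q ∧ 1 ≤ s ∧ d = dens q s c} L ∧
      ∀ (q s : ℕ) (c : ℕ → ℕ → Fin k), 1 ≤ q → 1 ≤ s → ∃ C : ℝ, ∀ N : ℕ,
        |(schurMono (strc q s c N) N : ℝ) - dens q s c * (N : ℝ) ^ 2| ≤ C * (N + 1) := by
  have hORD : G_ORD := Pool.Agent.Helper83.SL.gORD
  have hBLK : G_BLK := Pool.Agent.Helper77.SL.gBLK
  have hSTR := Pool.Agent.Helper89.SL.gSTR hORD hBLK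
  have hCS := Pool.Agent.Helper33.SL.gCS Pool.Agent.Helper86.SL.gVAR Pool.Agent.Helper5.SL.gPIG
    Pool.Agent.Helper24.SL.gSHF
  have hLOW := Pool.Agent.Helper15.SL.gLOW hORD Pool.Agent.Helper93.SL.gDBL
    Pool.Agent.Helper49.SL.gCMP hCS
  obtain ⟨L, h1, h2⟩ := Pool.Agent.Helper42.SL.gMAIN hSTR hLOW k hk
  exact ⟨L, h1, h2, fun q s c hq hs => hSTR k q s c hq hs⟩
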