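import Pool.Agent.Helper43.LO.Main

/-!
# MP_c13f7d_co: the seven-interval colouring is a strict local minimum

`ref n` is the 3-colouring of `{1, …, n}` by seven intervals with endpoints
`10, 24, 26, 54, 55, 66, 67` times `n / 67` and colours `0, 1, 0, 2, 0, 1, 0`.  It has
`n² / 134 + O(n)` monochromatic Schur triples, and every 3-colouring `χ` of `{1, …, n}` which
differs from it in `d ≤ n / 12000` places has at least `n² / 134 + d² / 100 - O(n)` of them.
-/

set_option autoImplicit false

open Pool.Agent.Helper33.Schur Pool.Agent.Helper43.LO in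
theorem Pool.Agent.Results.MP_c13f7d_co.LocalOptimality.result :
    ∃ K : ℝ, (∀ (n : ℕ) (χ : ℕ → Fin 3), 12000 * (dif n χ (ref n)).card ≤ n →
      (n : ℝ) ^ 2 / 134 + ((dif n χ (ref n)).card : ℝ) ^ 2 / 100 - K * n ≤ schurMono χ n) ∧
    (∀ n : ℕ, (schurMono (ref n) n : ℝ) ≤ (n : ℝ) ^ 2 / 134 + K * n) :=
  Pool.Agent.Helper43.LO.main
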