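import Pool.Agent.Helper33.SchurUpper

open Pool.Agent.Helper33.Schur

/-- `M_3(n) ≤ n²/134 + O(n)`: the minimum number of monochromatic Schur triples over all
3-colourings of `{1,…,n}` is at most `n²/134 + 2n + 60`. -/
theorem Pool.Agent.Results.MP_c13f7d_co.UpperBound134.result (n : ℕ) :
    (schurMin 3 n : ℝ) ≤ (n : ℝ) ^ 2 / 134 + 2 * n + 60 :=
  upper n
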